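import Pool.Agent.FKB.FinDefs
import Pool.Agent.IR.Main

/-!
# Free-boundary connection probabilities in the random-cluster model

For every integer `q ≥ 2` (all Potts models), every dimension `d ≥ 3` and every `p` in `[0, 1]`:
the free-box probability that the origin is joined to the boundary converges to the free density
`θ⁰(p, q)`, along all increasing sequences of boxes.
-/

open MeasureTheory Filter Topology

namespace Pool.Agent.Results.MP_0110bf_pr.PottsFreeBoundary

open FKB

/-- **Main theorem.** For `d ≥ 3`, integers `q ≥ 2` and all `p ∈ [0, 1]` the free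
infinite-volume measure `μ` exists, and the free-box one-arm probabilities converge to its density
`μ (0 ↔ ∞)` along every increasing sequence of boxes exhausting the lattice. -/
theorem result (d q : ℕ) (hd : 3 ≤ d) (hq : 2 ≤ q) (p : ℝ) (hp0 : 0 ≤ p) (hp1 : p ≤ 1) :
    (∃ μ : Measure (Set (Pt d × Pt d)), IsFreeLimit μ p (q : ℝ)) ∧
      ∀ μ : Measure (Set (Pt d × Pt d)), IsFreeLimit μ p (q : ℝ) →
        ∀ a b : ℕ → Pt d, Exhausts a b →
          Tendsto (fun m => phi0 (Finset.Icc (a m) (b m)) p (q : ℝ)
            (toBoundary (Finset.Icc (a m) (b m)))) atTop (𝓝 (μ.real toInfinity)) :=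
  final_int_all hd hq hp0 hp1

end Pool.Agent.Results.MP_0110bf_pr.PottsFreeBoundary
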