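import Pool.Agent.FKB.FinDefs
import Pool.Agent.BK.FinalR

/-!
# Free-boundary connection probabilities in the random-cluster model, real cluster weights
-/

open MeasureTheory Filter Topology

namespace Pool.Agent.Results.MP_0110bf_pr.RealFreeBoundary

open FKB

/-- **Main theorem.** For `d ≥ 3` there are critical points `pc q` (`q ≥ 1` real) such that the
free-box one-arm probabilities converge to the free density for all `p < pc q`, for all `p` above
the critical point `pc Q` of an integer `Q ≥ q`, `Q ≥ 2`, and for all `p` such that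
`p / (q (1 - p)) ≥ r / (Q (1 - r))` for an integer `2 ≤ Q ≤ q` and some `r > pc Q`. -/
theorem result (d : ℕ) (hd : 3 ≤ d) :
    ∃ pc : ℝ → ℝ, (∀ q : ℝ, 1 ≤ q → 0 ≤ pc q ∧ pc q ≤ 1) ∧
      ∀ q : ℝ, 1 ≤ q → ∀ p : ℝ, 0 ≤ p → p ≤ 1 →
      (∃ μ : Measure (Set (Pt d × Pt d)), IsFreeLimit μ p q) ∧
      ∀ μ : Measure (Set (Pt d × Pt d)), IsFreeLimit μ p q →
        (p < pc q → μ.real toInfinity = 0) ∧ (pc q < p → 0 < μ.real toInfinity) ∧
        ((p < pc q ∨ (∃ Q : ℕ, 2 ≤ Q ∧ q ≤ Q ∧ pc Q < p) ∨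
            (∃ Q : ℕ, 2 ≤ Q ∧ (Q : ℝ) ≤ q ∧ ∃ r : ℝ, pc Q < r ∧ r ≤ 1 ∧
              r * (1 - p) * q ≤ p * (1 - r) * Q)) →
          ∀ a b : ℕ → Pt d, Exhausts a b →
          Tendsto (fun m => phi0 (Finset.Icc (a m) (b m)) p q
            (toBoundary (Finset.Icc (a m) (b m)))) atTop (𝓝 (μ.real toInfinity))) :=
  final_real hd

end Pool.Agent.Results.MP_0110bf_pr.RealFreeBoundary
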